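import Pool.Agent.helper28.OC.Base

/-!
# OC project, module F2: the common kernel of few characters
-/

open scoped BigOperators

namespace Pool.Agent.helper28.OC

open L1G

theorem F2_card_ge (p m : ℕ) [Fact p.Prime] (S : Finset (AddChar (Omm p m) ℂ))
    (V : Finset (Omm p m)) (hV : ∀ v, v ∈ V ↔ ∀ ψ ∈ S, ψ v = 1) : p ^ m ≤ V.card * p ^ S.card := by
  classical
  have hp : 0 < p := (Fact.out : p.Prime).pos
  set R : Finset ℂ := Polynomial.nthRootsFinset p (1 : ℂ) with hR
  have hRc : R.card ≤ p := by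
    rw [hR, Polynomial.nthRootsFinset_def]
    exact (Multiset.toFinset_card_le _).trans (Polynomial.card_nthRoots p 1)
  let t : Finset (S → ℂ) := Fintype.piFinset fun _ => R
  have htc : t.card ≤ p ^ S.card := by
    rw [Fintype.card_piFinset, Finset.prod_const, Finset.card_univ, Fintype.card_coe]
    exact Nat.pow_le_pow_left hRc _
  have hmap : ∀ w ∈ (Finset.univ : Finset (Omm p m)), (fun ψ : S => ψ.1 w) ∈ t := by
    intro w _
    rw [Fintype.mem_piFinset]
    intro ψ
    rw [hR, Polynomial.mem_nthRootsFinset hp]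
    rw [← AddChar.map_nsmul_eq_pow]
    have : p • w = 0 := by
      funext i
      simp
    rw [this, AddChar.map_zero_eq_one]
  have hfib : ∀ b ∈ t, ((Finset.univ : Finset (Omm p m)).filter fun w => (fun ψ : S => ψ.1 w) = b).card
      ≤ V.card := by
    intro b _
    rcases ((Finset.univ : Finset (Omm p m)).filter fun w => (fun ψ : S => ψ.1 w) = b).eq_empty_or_nonempty
      with h | ⟨w0, hw0⟩
    · rw [h]; simp
    · rw [Finset.mem_filter] at hw0
      refine Finset.card_le_card_of_injOn (fun w => w - w0) ?_ ?_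
      · intro w hw
        rw [Finset.mem_coe, Finset.mem_filter] at hw
        rw [Finset.mem_coe, hV]
        intro ψ hψ
        have h1 := congrFun hw.2 ⟨ψ, hψ⟩
        have h2 := congrFun hw0.2 ⟨ψ, hψ⟩
        simp only at h1 h2 ⊢
        rw [sub_eq_add_neg, AddChar.map_add_eq_mul, AddChar.map_neg_eq_inv, h1, h2]
        refine mul_inv_cancel₀ ?_
        rw [← h2]
        exact (AddChar.val_isUnit ψ w0).ne_zero
      · intro a _ b _ h
        exact sub_left_injective h
  have h := Finset.card_le_mul_card_image_of_maps_to hmap V.card hfib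
  rw [Finset.card_univ, Fintype.card_fun, ZMod.card, Fintype.card_fin] at h
  exact h.trans (Nat.mul_le_mul_left _ htc)

theorem F2_kernel (p m : ℕ) [Fact p.Prime] (S : Finset (AddChar (Omm p m) ℂ))
    (V : Finset (Omm p m)) (hV : ∀ v, v ∈ V ↔ ∀ ψ ∈ S, ψ v = 1) :
    V.Nonempty ∧ ((m : ℝ) - S.card) * (1 - 1 / p) * V.card ≤
      ∑ v ∈ V, ∑ i, (if v i = 0 then (0 : ℝ) else 1) := by
  classical
  have hp : 0 < p := (Fact.out : p.Prime).pos
  have h0 : (0 : Omm p m) ∈ V := by
    rw [hV]
    intro ψ _
    exact AddChar.map_zero_eq_one ψ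
  refine ⟨⟨0, h0⟩, ?_⟩
  have hadd : ∀ v ∈ V, ∀ w ∈ V, v + w ∈ V := by
    intro v hv w hw
    rw [hV] at hv hw ⊢
    intro ψ hψ
    rw [AddChar.map_add_eq_mul, hv ψ hψ, hw ψ hψ, mul_one]
  have hsmul : ∀ v ∈ V, ∀ n : ℕ, n • v ∈ V := by
    intro v hv n
    induction n with
    | zero => rw [zero_smul]; exact h0
    | succ n ih => rw [succ_nsmul]; exact hadd _ ih _ hv
  have hge := F2_card_ge p m S V hV
  -- the frozen coordinates
  set Z : Finset (Fin m) := Finset.univ.filter fun i => ∀ v ∈ V, v i = 0 with hZ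
  have hle : V.card * p ^ Z.card ≤ p ^ m := by
    have h1 : V.card ≤ Fintype.card ({i // i ∉ Z} → ZMod p) := by
      rw [← Finset.card_univ]
      refine Finset.card_le_card_of_injOn (fun v i => v i.1) (fun _ _ => Finset.mem_coe.2 (Finset.mem_univ _)) ?_
      intro v hv w hw h
      funext i
      by_cases hi : i ∈ Z
      · rw [hZ, Finset.mem_filter] at hi
        rw [hi.2 v hv, hi.2 w hw]
      · exact congrFun h ⟨i, hi⟩
    rw [Fintype.card_fun, ZMod.card] at h1
    have h2 : Fintype.card {i // i ∉ Z} + Z.card = m := by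
      have h3 := Fintype.card_subtype_compl (fun i => i ∈ Z)
      rw [Fintype.card_fin, Fintype.card_coe] at h3
      have h4 : Z.card ≤ m := by
        have := Finset.card_le_univ Z
        rwa [Fintype.card_fin] at this
      omega
    calc V.card * p ^ Z.card ≤ p ^ Fintype.card {i // i ∉ Z} * p ^ Z.card := Nat.mul_le_mul_right _ h1
      _ = p ^ m := by rw [← pow_add, h2]
  have hVpos : 0 < V.card := Finset.card_pos.2 ⟨0, h0⟩
  have hZS : Z.card ≤ S.card := by
    have h1 : V.card * p ^ Z.card ≤ V.card * p ^ S.card := hle.trans hge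
    have h2 := Nat.le_of_mul_le_mul_left h1 hVpos
    exact (Nat.pow_le_pow_iff_right (Fact.out : p.Prime).one_lt).1 h2
  have hpR : (0 : ℝ) < p := by exact_mod_cast hp
  have hp1 : (1 : ℝ) ≤ p := by exact_mod_cast hp
  -- equidistribution of the other coordinates
  have hcoord : ∀ i, i ∉ Z → (1 - 1 / (p : ℝ)) * V.card ≤ ∑ v ∈ V, (if v i = 0 then (0 : ℝ) else 1) := by
    intro i hi
    rw [hZ, Finset.mem_filter] at hi
    push Not at hi
    obtain ⟨u, hu, hui⟩ := hi (Finset.mem_univ _)
    have hN : p * (V.filter fun v => v i = 0).card ≤ V.card := by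
      have h1 : ∀ a : ZMod p, (V.filter fun v => v i = 0).card ≤ (V.filter fun v => v i = a).card := by
        intro a
        refine Finset.card_le_card_of_injOn (fun v => v + (a / u i).val • u) ?_ ?_
        · intro v hv
          rw [Finset.mem_coe, Finset.mem_filter] at hv ⊢
          refine ⟨hadd _ hv.1 _ (hsmul u hu _), ?_⟩
          simp only [Pi.add_apply, hv.2, zero_add, Pi.smul_apply]
          rw [nsmul_eq_mul, ZMod.natCast_zmod_val, div_mul_cancel₀ _ hui]
        · intro a _ b _ h
          exact add_left_injective _ h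
      have h2 : V.card = ∑ a : ZMod p, (V.filter fun v => v i = a).card :=
        Finset.card_eq_sum_card_fiberwise (f := fun v : Omm p m => v i) (t := Finset.univ)
          fun _ _ => Finset.mem_coe.2 (Finset.mem_univ _)
      rw [h2]
      calc p * (V.filter fun v => v i = 0).card = ∑ _a : ZMod p, (V.filter fun v => v i = 0).card := by
            rw [Finset.sum_const, Finset.card_univ, ZMod.card, smul_eq_mul]
        _ ≤ _ := Finset.sum_le_sum fun a _ => h1 a
    have h3 : ∑ v ∈ V, (if v i = 0 then (0 : ℝ) else 1) = V.card - (V.filter fun v => v i = 0).card := by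
      have h4 : ∀ v : Omm p m, (if v i = 0 then (0 : ℝ) else 1) = 1 - if v i = 0 then 1 else 0 := by
        intro v; split_ifs <;> simp
      simp only [h4, Finset.sum_sub_distrib]
      rw [Finset.sum_const, nsmul_eq_mul, mul_one, Finset.sum_boole]
    rw [h3]
    have h5 : (p : ℝ) * (V.filter fun v => v i = 0).card ≤ V.card := by exact_mod_cast hN
    have h6 : ((V.filter fun v => v i = 0).card : ℝ) ≤ 1 / p * V.card := by
      rw [one_div, inv_mul_eq_div, le_div_iff₀ hpR, mul_comm]
      exact h5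
    linarith
  rw [Finset.sum_comm]
  have hsub : ∑ i ∈ Zᶜ, (1 - 1 / (p : ℝ)) * V.card ≤ ∑ i : Fin m, ∑ v ∈ V, (if v i = 0 then (0 : ℝ) else 1) := by
    calc ∑ i ∈ Zᶜ, (1 - 1 / (p : ℝ)) * V.card
        ≤ ∑ i ∈ Zᶜ, ∑ v ∈ V, (if v i = 0 then (0 : ℝ) else 1) :=
          Finset.sum_le_sum fun i hi => hcoord i (Finset.mem_compl.1 hi)
      _ ≤ _ := by
          refine Finset.sum_le_sum_of_subset_of_nonneg (Finset.subset_univ _) fun i _ _ => ?_
          exact Finset.sum_nonneg fun v _ => by split_ifs <;> norm_num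
  refine le_trans ?_ hsub
  rw [Finset.sum_const, Finset.card_compl, Fintype.card_fin, nsmul_eq_mul]
  have h7 : Z.card ≤ m := by
    have := Finset.card_le_univ Z
    rwa [Fintype.card_fin] at this
  rw [Nat.cast_sub h7]
  have h8 : (Z.card : ℝ) ≤ S.card := by exact_mod_cast hZS
  have h9 : 0 ≤ (1 - 1 / (p : ℝ)) * V.card := by
    refine mul_nonneg ?_ (Nat.cast_nonneg _)
    rw [sub_nonneg, div_le_one hpR]
    exact hp1
  nlinarith

end Pool.Agent.helper28.OC
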