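import Pool.Agent.helper28.OC.Base

/-!
# OC project, module F3: moments of `XX w - XX (w + v)`
-/

open scoped BigOperators

namespace Pool.Agent.helper28.OC

open L1G

theorem F3_cons {α : Type*} [Fintype α] [Nonempty α] {m : ℕ} (F : (Fin (m + 1) → α) → ℝ) :
    𝔼 w : Fin (m + 1) → α, F w = 𝔼 x : α, 𝔼 w : Fin m → α, F (Fin.cons x w) := by
  classical
  have h1 : 𝔼 w : Fin (m + 1) → α, F w = 𝔼 z : α × (Fin m → α), F (Fin.cons z.1 z.2) := by
    refine (Fintype.expect_equiv (Fin.consEquiv fun _ : Fin (m + 1) => α) _ _ ?_).symm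
    intro x
    rfl
  rw [h1, ← Finset.univ_product_univ, Finset.expect_product]

theorem F3_mean {α : Type*} [Fintype α] [Nonempty α] : ∀ (m : ℕ) (f : Fin m → α → ℝ),
    (∀ i, 𝔼 x, f i x = 0) → 𝔼 w : Fin m → α, ∑ i, f i (w i) = 0 := by
  intro m
  induction m with
  | zero => intro f _; simp
  | succ m ih =>
    intro f hf
    rw [F3_cons]
    simp only [Fin.sum_univ_succ, Fin.cons_zero, Fin.cons_succ, Finset.expect_add_distrib]
    rw [ih (fun i => f i.succ) fun i => hf i.succ]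
    simp [hf 0, Finset.expect_const]

theorem F3_two {α : Type*} [Fintype α] [Nonempty α] : ∀ (m : ℕ) (f : Fin m → α → ℝ),
    (∀ i, 𝔼 x, f i x = 0) →
    𝔼 w : Fin m → α, (∑ i, f i (w i)) ^ 2 = ∑ i, 𝔼 x, (f i x) ^ 2 := by
  intro m
  induction m with
  | zero => intro f _; simp
  | succ m ih =>
    intro f hf
    rw [F3_cons]
    have h0 := F3_mean m (fun i => f i.succ) fun i => hf i.succ
    have h2 := ih (fun i => f i.succ) fun i => hf i.succ
    have key : ∀ x : α, 𝔼 w : Fin m → α, (∑ i, f i ((Fin.cons x w : Fin (m + 1) → α) i)) ^ 2 =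
        (f 0 x) ^ 2 + ∑ i : Fin m, 𝔼 x, (f i.succ x) ^ 2 := by
      intro x
      rw [← h2]
      simp only [Fin.sum_univ_succ, Fin.cons_zero, Fin.cons_succ]
      have : ∀ w : Fin m → α, (f 0 x + ∑ i : Fin m, f i.succ (w i)) ^ 2 =
          (f 0 x) ^ 2 + 2 * f 0 x * (∑ i : Fin m, f i.succ (w i)) + (∑ i : Fin m, f i.succ (w i)) ^ 2 := by
        intro w; ring
      simp only [this, Finset.expect_add_distrib, ← Finset.mul_expect]
      rw [h0]
      simp [Finset.expect_const]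
    rw [Finset.expect_congr rfl (fun x _ => key x), Finset.expect_add_distrib, Fin.sum_univ_succ]
    simp [Finset.expect_const]

theorem F3_four {α : Type*} [Fintype α] [Nonempty α] : ∀ (m : ℕ) (f : Fin m → α → ℝ),
    (∀ i, 𝔼 x, f i x = 0) →
    𝔼 w : Fin m → α, (∑ i, f i (w i)) ^ 4 ≤
      ∑ i, 𝔼 x, (f i x) ^ 4 + 3 * (∑ i, 𝔼 x, (f i x) ^ 2) ^ 2 := by
  intro m
  induction m with
  | zero => intro f _; simp
  | succ m ih =>
    intro f hf
    rw [F3_cons]
    have h0 := F3_mean m (fun i => f i.succ) fun i => hf i.succ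
    have h2 := F3_two m (fun i => f i.succ) fun i => hf i.succ
    have h4 := ih (fun i => f i.succ) fun i => hf i.succ
    set E3 := 𝔼 w : Fin m → α, (∑ i : Fin m, f i.succ (w i)) ^ 3 with hE3
    set E4 := 𝔼 w : Fin m → α, (∑ i : Fin m, f i.succ (w i)) ^ 4 with hE4
    set A := ∑ i : Fin m, 𝔼 x, (f i.succ x) ^ 2 with hA
    have key : ∀ x : α, 𝔼 w : Fin m → α, (∑ i, f i ((Fin.cons x w : Fin (m + 1) → α) i)) ^ 4 =
        (f 0 x) ^ 4 + 6 * (f 0 x) ^ 2 * A + 4 * f 0 x * E3 + E4 := by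
      intro x
      simp only [Fin.sum_univ_succ, Fin.cons_zero, Fin.cons_succ]
      have : ∀ w : Fin m → α, (f 0 x + ∑ i : Fin m, f i.succ (w i)) ^ 4 =
          (f 0 x) ^ 4 + 4 * (f 0 x) ^ 3 * (∑ i : Fin m, f i.succ (w i)) +
            6 * (f 0 x) ^ 2 * (∑ i : Fin m, f i.succ (w i)) ^ 2 +
            4 * f 0 x * (∑ i : Fin m, f i.succ (w i)) ^ 3 + (∑ i : Fin m, f i.succ (w i)) ^ 4 := by
        intro w; ring
      simp only [this, Finset.expect_add_distrib, ← Finset.mul_expect]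
      rw [h0, h2]
      simp [Finset.expect_const, hE3, hE4]
    have hx : 𝔼 x : α, ((f 0 x) ^ 4 + 6 * (f 0 x) ^ 2 * A + 4 * f 0 x * E3 + E4) =
        𝔼 x : α, (f 0 x) ^ 4 + 6 * (𝔼 x : α, (f 0 x) ^ 2) * A + E4 := by
      have h5 : ∀ x : α, (f 0 x) ^ 4 + 6 * (f 0 x) ^ 2 * A + 4 * f 0 x * E3 + E4 =
          (f 0 x) ^ 4 + (6 * A) * (f 0 x) ^ 2 + (4 * E3) * f 0 x + E4 := by intro x; ring
      simp only [h5, Finset.expect_add_distrib, ← Finset.mul_expect]
      rw [hf 0]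
      simp [Finset.expect_const]
      ring
    rw [Finset.expect_congr rfl (fun x _ => key x), hx, Fin.sum_univ_succ, Fin.sum_univ_succ, ← hA]
    have hA0 : 0 ≤ A := by
      rw [hA]
      exact Finset.sum_nonneg fun i _ => Finset.expect_nonneg fun x _ => by positivity
    have hB0 : 0 ≤ 𝔼 x : α, (f 0 x) ^ 2 := Finset.expect_nonneg fun x _ => by positivity
    nlinarith [sq_nonneg (𝔼 x : α, (f 0 x) ^ 2)]

/-- the difference of the indicators -/
noncomputable def F3_Y {p : ℕ} (v x : ZMod p) : ℝ := (if x = 0 then 1 else 0) - (if x + v = 0 then 1 else 0)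

theorem F3_ind {p : ℕ} [NeZero p] (a : ZMod p) :
    𝔼 x : ZMod p, (if x + a = 0 then (1 : ℝ) else 0) = 1 / p := by
  have h : ∀ x : ZMod p, (if x + a = 0 then (1 : ℝ) else 0) = if x = -a then 1 else 0 := by
    intro x
    congr 1
    rw [eq_iff_iff]
    exact add_eq_zero_iff_eq_neg
  simp only [h]
  rw [Fintype.expect_eq_sum_div_card]
  simp [ZMod.card]

theorem F3_Y_mean {p : ℕ} [NeZero p] (v : ZMod p) : 𝔼 x : ZMod p, F3_Y v x = 0 := by
  unfold F3_Y
  rw [Finset.expect_sub_distrib, F3_ind]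
  have := F3_ind (0 : ZMod p)
  simp only [add_zero] at this
  rw [this, sub_self]

theorem F3_Y_sq {p : ℕ} [NeZero p] (v : ZMod p) :
    𝔼 x : ZMod p, (F3_Y v x) ^ 2 = 2 / p * (if v = 0 then (0 : ℝ) else 1) := by
  unfold F3_Y
  by_cases hv : v = 0
  · simp [hv]
  · have h : ∀ x : ZMod p, ((if x = 0 then (1 : ℝ) else 0) - (if x + v = 0 then 1 else 0)) ^ 2 =
        (if x + 0 = 0 then 1 else 0) + (if x + v = 0 then 1 else 0) := by
      intro x
      by_cases h1 : x = 0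
      · subst h1
        simp [hv]
      · by_cases h2 : x + v = 0 <;> simp [h1, h2]
    simp only [h, Finset.expect_add_distrib, F3_ind, hv, if_false]
    ring

theorem F3_Y_four {p : ℕ} (v x : ZMod p) : (F3_Y v x) ^ 4 = (F3_Y v x) ^ 2 := by
  unfold F3_Y
  split_ifs <;> norm_num

theorem F3_XX {p m : ℕ} (v w : Omm p m) : XX w - XX (w + v) = ∑ i, F3_Y (v i) (w i) := by
  unfold XX F3_Y
  rw [← Finset.sum_sub_distrib]
  rfl

theorem F3_second (p m : ℕ) [Fact p.Prime] (v : Omm p m) :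
    𝔼 w : Omm p m, (XX w - XX (w + v)) ^ 2 = 2 / p * ∑ i, (if v i = 0 then (0 : ℝ) else 1) := by
  simp only [F3_XX]
  rw [F3_two m (fun i => F3_Y (v i)) fun i => F3_Y_mean (v i), Finset.mul_sum]
  exact Finset.sum_congr rfl fun i _ => F3_Y_sq (v i)

theorem F3_fourth (p m : ℕ) [Fact p.Prime] (v : Omm p m) :
    𝔼 w : Omm p m, (XX w - XX (w + v)) ^ 4 ≤ 12 * m ^ 2 / p ^ 2 + 2 * m / p := by
  simp only [F3_XX]
  refine (F3_four m (fun i => F3_Y (v i)) fun i => F3_Y_mean (v i)).trans ?_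
  simp only [F3_Y_four, F3_Y_sq]
  have hp : (0 : ℝ) < p := by exact_mod_cast (Fact.out : p.Prime).pos
  have h1 : ∑ i : Fin m, 2 / (p : ℝ) * (if v i = 0 then (0 : ℝ) else 1) ≤ 2 * m / p := by
    calc ∑ i : Fin m, 2 / (p : ℝ) * (if v i = 0 then (0 : ℝ) else 1)
        ≤ ∑ _i : Fin m, 2 / (p : ℝ) := by
          refine Finset.sum_le_sum fun i _ => ?_
          split_ifs
          · rw [mul_zero]; positivity
          · rw [mul_one]
      _ = 2 * m / p := by
          rw [Finset.sum_const, Finset.card_univ, Fintype.card_fin, nsmul_eq_mul]; ring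
  have h0 : 0 ≤ ∑ i : Fin m, 2 / (p : ℝ) * (if v i = 0 then (0 : ℝ) else 1) := by
    refine Finset.sum_nonneg fun i _ => ?_
    split_ifs
    · rw [mul_zero]
    · rw [mul_one]; positivity
  have h2 : (∑ i : Fin m, 2 / (p : ℝ) * (if v i = 0 then (0 : ℝ) else 1)) ^ 2 ≤ (2 * m / p) ^ 2 :=
    pow_le_pow_left₀ h0 h1 2
  have h3 : (2 * (m : ℝ) / p) ^ 2 = 4 * m ^ 2 / p ^ 2 := by ring
  have h4 : 12 * (m : ℝ) ^ 2 / p ^ 2 = 3 * (4 * m ^ 2 / p ^ 2) := by ring
  rw [h4, ← h3]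
  linarith

end Pool.Agent.helper28.OC
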