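import Pool.Agent.helper26.CV.F2
import Pool.Agent.helper26.CV.F3

/-!
# OC project, module F4: anticoncentration of `XX` around functions invariant under few characters
-/

open scoped BigOperators

namespace Pool.Agent.helper28.OC

open L1G

theorem F4_one (p m : ℕ) [Fact p.Prime] (hm : p ≤ m) (s : Omm p m → ℝ) (v : Omm p m)
    (hs : ∀ w, s (w + v) = s w) (c : ℝ) (hc : 0 ≤ c) (E : Finset (Omm p m))
    (hE : ∀ w ∈ E, |XX w - s w| ≤ c * Real.sqrt m)
    (hcard : (1 - 1 / 120) * (Fintype.card (Omm p m) : ℝ) ≤ E.card) :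
    2 / p * ∑ i, (if v i = 0 then (0 : ℝ) else 1) ≤ 4 * c ^ 2 * m + 49 / 100 * (m / p) := by
  classical
  have hp : (0 : ℝ) < p := by exact_mod_cast (Fact.out : p.Prime).pos
  have hmR : (0 : ℝ) < m := lt_of_lt_of_le hp (by exact_mod_cast hm)
  set N : ℝ := (Fintype.card (Omm p m) : ℝ) with hN
  have hN0 : 0 < N := by rw [hN]; exact_mod_cast Fintype.card_pos
  rw [← F3_second p m v, Fintype.expect_eq_sum_div_card, ← hN, div_le_iff₀ hN0]
  set Y : Omm p m → ℝ := fun w => XX w - XX (w + v) with hY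
  set B : Finset (Omm p m) := Finset.univ.filter fun w => ¬ (w ∈ E ∧ w + v ∈ E) with hB
  have hsplit : ∑ w, Y w ^ 2 = ∑ w ∈ Finset.univ.filter (fun w => w ∈ E ∧ w + v ∈ E), Y w ^ 2 +
      ∑ w ∈ B, Y w ^ 2 := by
    rw [hB, Finset.sum_filter_add_sum_filter_not]
  -- good part
  have hgood : ∑ w ∈ Finset.univ.filter (fun w => w ∈ E ∧ w + v ∈ E), Y w ^ 2 ≤ 4 * c ^ 2 * m * N := by
    have h1 : ∀ w ∈ Finset.univ.filter (fun w => w ∈ E ∧ w + v ∈ E), Y w ^ 2 ≤ 4 * c ^ 2 * m := by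
      intro w hw
      rw [Finset.mem_filter] at hw
      have h2 := hE w hw.2.1
      have h3 := hE (w + v) hw.2.2
      rw [hs] at h3
      have h4 : |Y w| ≤ 2 * (c * Real.sqrt m) := by
        have : Y w = (XX w - s w) - (XX (w + v) - s w) := by rw [hY]; ring
        rw [this]
        refine (abs_sub _ _).trans ?_
        linarith
      have h5 : Y w ^ 2 ≤ (2 * (c * Real.sqrt m)) ^ 2 := by
        rw [← sq_abs]
        exact pow_le_pow_left₀ (abs_nonneg _) h4 2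
      refine h5.trans (le_of_eq ?_)
      rw [mul_pow, mul_pow, Real.sq_sqrt hmR.le]
      ring
    refine (Finset.sum_le_sum h1).trans ?_
    rw [Finset.sum_const, nsmul_eq_mul, mul_comm]
    refine mul_le_mul_of_nonneg_left ?_ (by positivity)
    rw [hN]
    exact_mod_cast Finset.card_le_univ _
  -- bad part
  have hBc : (B.card : ℝ) ≤ N / 60 := by
    have h1 : B ⊆ Eᶜ ∪ (Eᶜ).image (fun w => w - v) := by
      intro w hw
      rw [hB, Finset.mem_filter] at hw
      rw [Finset.mem_union, Finset.mem_image, Finset.mem_compl]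
      by_cases h : w ∈ E
      · right
        refine ⟨w + v, ?_, by simp⟩
        rw [Finset.mem_compl]
        exact fun h' => hw.2 ⟨h, h'⟩
      · left; exact h
    have h2 : B.card ≤ (Eᶜ).card + (Eᶜ).card :=
      (Finset.card_le_card h1).trans ((Finset.card_union_le _ _).trans
        (Nat.add_le_add_left Finset.card_image_le _))
    have h3 : ((Eᶜ).card : ℝ) = N - E.card := by
      rw [Finset.card_compl, Nat.cast_sub (Finset.card_le_univ E), hN]
    have h4 : (B.card : ℝ) ≤ (Eᶜ).card + (Eᶜ).card := by exact_mod_cast h2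
    rw [h3] at h4
    linarith
  have h4 : ∑ w, Y w ^ 4 ≤ 14 * (m / p) ^ 2 * N := by
    have h5 := F3_fourth p m v
    rw [Fintype.expect_eq_sum_div_card, ← hN, div_le_iff₀ hN0] at h5
    refine h5.trans (mul_le_mul_of_nonneg_right ?_ hN0.le)
    have h6 : (1 : ℝ) ≤ m / p := by
      rw [le_div_iff₀ hp, one_mul]
      exact_mod_cast hm
    have h7 : 12 * (m : ℝ) ^ 2 / p ^ 2 + 2 * m / p = 12 * (m / p) ^ 2 + 2 * (m / p) := by ring
    rw [h7]
    nlinarith
  have hbad : ∑ w ∈ B, Y w ^ 2 ≤ 49 / 100 * (m / p) * N := by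
    have h5 : (∑ w ∈ B, Y w ^ 2) ^ 2 ≤ B.card * ∑ w ∈ B, (Y w ^ 2) ^ 2 := sq_sum_le_card_mul_sum_sq
    have h6 : ∑ w ∈ B, (Y w ^ 2) ^ 2 ≤ 14 * (m / p) ^ 2 * N := by
      refine le_trans ?_ h4
      have h7 : ∀ w : Omm p m, (Y w ^ 2) ^ 2 = Y w ^ 4 := fun w => by ring
      simp only [h7]
      exact Finset.sum_le_sum_of_subset_of_nonneg (Finset.subset_univ _) fun w _ _ => by positivity
    have h7 : (∑ w ∈ B, Y w ^ 2) ^ 2 ≤ (49 / 100 * (m / p) * N) ^ 2 := by
      calc (∑ w ∈ B, Y w ^ 2) ^ 2 ≤ B.card * ∑ w ∈ B, (Y w ^ 2) ^ 2 := h5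
        _ ≤ (N / 60) * (14 * (m / p) ^ 2 * N) :=
            mul_le_mul hBc h6 (Finset.sum_nonneg fun w _ => by positivity) (by positivity)
        _ = 14 / 60 * ((m / p) ^ 2 * N ^ 2) := by ring
        _ ≤ (49 / 100) ^ 2 * ((m / p) ^ 2 * N ^ 2) :=
            mul_le_mul_of_nonneg_right (by norm_num) (by positivity)
        _ = (49 / 100 * (m / p) * N) ^ 2 := by ring
    exact (pow_le_pow_iff_left₀ (Finset.sum_nonneg fun w _ => by positivity) (by positivity)
      (by norm_num)).1 h7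
  have : ∑ w, (XX w - XX (w + v)) ^ 2 = ∑ w, Y w ^ 2 := rfl
  rw [this, hsplit]
  linarith

theorem F4_anti (p m : ℕ) [Fact p.Prime] (hm : p ≤ m) (S : Finset (AddChar (Omm p m) ℂ))
    (hS : 4 * S.card ≤ m) (s : Omm p m → ℝ)
    (hs : ∀ v w, (∀ ψ ∈ S, ψ v = 1) → s (w + v) = s w) (c : ℝ) (hc : 0 ≤ c)
    (hc2 : 16 * p * c ^ 2 ≤ 1) (E : Finset (Omm p m))
    (hE : ∀ w ∈ E, |XX w - s w| ≤ c * Real.sqrt m) :
    (E.card : ℝ) ≤ (1 - 1 / 120) * Fintype.card (Omm p m) := by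
  classical
  by_contra hcon
  push Not at hcon
  have hp : (0 : ℝ) < p := by exact_mod_cast (Fact.out : p.Prime).pos
  have hp2 : (2 : ℝ) ≤ p := by exact_mod_cast (Fact.out : p.Prime).two_le
  have hmR : (0 : ℝ) < m := lt_of_lt_of_le hp (by exact_mod_cast hm)
  set V : Finset (Omm p m) := Finset.univ.filter fun v => ∀ ψ ∈ S, ψ v = 1 with hV
  obtain ⟨hVne, hker⟩ := F2_kernel p m S V (fun v => by rw [hV, Finset.mem_filter]; simp)
  have hVc : (0 : ℝ) < V.card := by exact_mod_cast Finset.card_pos.2 hVne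
  have h1 : 2 / p * ∑ v ∈ V, ∑ i, (if v i = 0 then (0 : ℝ) else 1) ≤
      V.card * (4 * c ^ 2 * m + 49 / 100 * (m / p)) := by
    rw [Finset.mul_sum]
    calc ∑ v ∈ V, 2 / p * ∑ i, (if v i = 0 then (0 : ℝ) else 1)
        ≤ ∑ _v ∈ V, (4 * c ^ 2 * m + 49 / 100 * (m / p)) := by
          refine Finset.sum_le_sum fun v hv => ?_
          rw [hV, Finset.mem_filter] at hv
          exact F4_one p m hm s v (fun w => hs v w hv.2) c hc E hE hcon.le
      _ = _ := by rw [Finset.sum_const, nsmul_eq_mul]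
  have h2 : 3 / 8 * (m : ℝ) * V.card ≤ ∑ v ∈ V, ∑ i, (if v i = 0 then (0 : ℝ) else 1) := by
    refine le_trans ?_ hker
    refine mul_le_mul_of_nonneg_right ?_ hVc.le
    have h3 : (4 : ℝ) * S.card ≤ m := by exact_mod_cast hS
    have h4 : (1 : ℝ) / p ≤ 1 / 2 := one_div_le_one_div_of_le (by norm_num) hp2
    have h5 : (1 / 2 : ℝ) ≤ 1 - 1 / p := by linarith
    have h6 : 3 / 4 * (m : ℝ) ≤ m - S.card := by linarith
    calc 3 / 8 * (m : ℝ) = (3 / 4 * m) * (1 / 2) := by ring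
      _ ≤ (m - S.card) * (1 - 1 / p) := mul_le_mul h6 h5 (by norm_num) (by linarith)
  have h3 : 2 / p * (3 / 8 * (m : ℝ) * V.card) ≤ V.card * (4 * c ^ 2 * m + 49 / 100 * (m / p)) :=
    (mul_le_mul_of_nonneg_left h2 (by positivity)).trans h1
  have h4 : 2 / p * (3 / 8 * (m : ℝ)) ≤ 4 * c ^ 2 * m + 49 / 100 * (m / p) := by
    refine le_of_mul_le_mul_left ?_ hVc
    linarith
  have h5 : 4 * c ^ 2 * (m : ℝ) ≤ 1 / 4 * (m / p) := by
    rw [mul_div_assoc', le_div_iff₀ hp]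
    nlinarith
  have h6 : 2 / p * (3 / 8 * (m : ℝ)) = 3 / 4 * (m / p) := by ring
  have h7 : (0 : ℝ) < m / p := div_pos hmR hp
  rw [h6] at h4
  linarith

end Pool.Agent.helper28.OC
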